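import Pool.Agent.Q66.SH.Stm

/-!
# Project SH, job HB: Hilbert bases indexed by the naturals
-/

set_option autoImplicit false

open Filter Topology
open scoped ENNReal

namespace Pool.Agent.Q121.SH

open Pool.Agent.Q66.SH

/-- orthonormal families in separable spaces are countable -/
theorem countable_on {E : Type} [NormedAddCommGroup E] [InnerProductSpace ℂ E]
    [TopologicalSpace.SeparableSpace E] {ι : Type} {v : ι → E} (hv : Orthonormal ℂ v) :
    Countable ι := by
  have h1 : (Set.univ : Set ι).PairwiseDisjoint (fun i => Metric.ball (v i) (1 / 2)) := by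
    intro i _ j _ hij
    apply Metric.ball_disjoint_ball
    rw [dist_eq_norm]
    have h2 : ‖v i - v j‖ ^ 2 = 2 := by
      rw [@norm_sub_sq ℂ, hv.1 i, hv.1 j, hv.2 hij]
      norm_num
    nlinarith [norm_nonneg (v i - v j)]
  have h2 := h1.countable_of_isOpen (fun i _ => Metric.isOpen_ball)
    (fun i _ => ⟨v i, Metric.mem_ball_self (by norm_num)⟩)
  exact Set.countable_univ_iff.1 h2

theorem t_HB : S_HB := by
  intro H _ _ _ _ hH
  obtain ⟨w, b, hb⟩ := exists_hilbertBasis ℂ H
  have hc : Countable w := countable_on b.orthonormal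
  have hi : Infinite w := by
    rw [← not_finite_iff_infinite]
    intro hf
    have := Fintype.ofFinite w
    exact hH (Module.Finite.of_basis b.toOrthonormalBasis.toBasis)
  obtain ⟨e⟩ : Nonempty (w ≃ ℕ) := nonempty_equiv_of_countable
  have hr : Set.range (fun k : ℕ => b (e.symm k)) = Set.range b :=
    e.symm.surjective.range_comp b
  exact ⟨HilbertBasis.mk (v := fun k : ℕ => b (e.symm k))
    (b.orthonormal.comp e.symm e.symm.injective) (by rw [hr]; exact b.dense_span.ge)⟩

end Pool.Agent.Q121.SH
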