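import Pool.Agent.Q66.SH.Stm

/-!
# Project SH, job POS: `S_2(H)` embeds isometrically into `S_p(H)`
-/

set_option autoImplicit false

open Filter Topology
open scoped ENNReal

namespace Pool.Agent.Q121.SH

open Pool.Agent.Q66.SH

section
variable {H : Type} [NormedAddCommGroup H] [InnerProductSpace ℂ H] [CompleteSpace H]

theorem exists_seq (b : HilbertBasis ℕ ℂ H) (u : H) (hu : ‖u‖ = 1) :
    ∃ f : ℕ → H, Orthonormal ℂ f ∧ f 0 = u := by
  classical
  have hs : Orthonormal ℂ ((↑) : ({u} : Set H) → H) := by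
    rw [orthonormal_subtype_iff_ite]
    intro v hv w hw
    rw [Set.mem_singleton_iff] at hv hw
    rw [hv, hw, if_pos rfl, inner_self_eq_norm_sq_to_K, hu]
    simp
  obtain ⟨w, b', hw, hb'⟩ := hs.exists_hilbertBasis_extension
  have huw : u ∈ w := hw (Set.mem_singleton u)
  have hi : Infinite w := by
    rw [← not_finite_iff_infinite]
    intro hf
    have := Fintype.ofFinite w
    have hfd : Module.Finite ℂ H := Module.Finite.of_basis b'.toOrthonormalBasis.toBasis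
    have := (b.orthonormal.linearIndependent).finite_of_isNoetherian
    exact not_finite ℕ
  let g : ℕ ↪ w := Infinite.natEmbedding w
  refine ⟨fun n => b' (Equiv.swap (g 0) ⟨u, huw⟩ (g n)), ?_, ?_⟩
  · exact b'.orthonormal.comp _ ((Equiv.injective _).comp g.injective)
  · show b' (Equiv.swap (g 0) ⟨u, huw⟩ (g 0)) = u
    rw [Equiv.swap_apply_left, hb']

/-- operators of rank one have norm `‖v‖` in all classes -/
theorem inS_rk1 (b : HilbertBasis ℕ ℂ H) (v : H) (p : ℝ≥0∞) (hp : p ≠ 0) :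
    InS p (rk1 (b 0) v) ‖v‖ := by
  have hf : ∃ f : ℕ → H, Orthonormal ℂ f ∧ (‖v‖ : ℂ) • f 0 = v := by
    by_cases hv : v = 0
    · exact ⟨b, b.orthonormal, by simp [hv]⟩
    · have hn : ‖v‖ ≠ 0 := norm_ne_zero_iff.2 hv
      obtain ⟨f, hf, hf0⟩ := exists_seq b (((‖v‖ : ℂ)⁻¹) • v) (by
        rw [norm_smul, norm_inv, Complex.norm_real, norm_norm]
        field_simp)
      refine ⟨f, hf, ?_⟩
      rw [hf0, smul_smul, mul_inv_cancel₀ (by exact_mod_cast hn), one_smul]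
  obtain ⟨f, hf, hfv⟩ := hf
  have h0 : 0 ≤ ‖v‖ := norm_nonneg v
  refine ⟨fun j => if j = 0 then ‖v‖ else 0, ⟨?_, ?_, ?_, b, f, b.orthonormal, hf, ?_⟩, ?_⟩
  · intro i j hij
    show (if j = 0 then ‖v‖ else 0) ≤ (if i = 0 then ‖v‖ else 0)
    by_cases hj : j = 0
    · have hi : i = 0 := by omega
      rw [if_pos hj, if_pos hi]
    · rw [if_neg hj]
      split_ifs
      · exact h0
      · exact le_rfl
  · intro j
    show 0 ≤ (if j = 0 then ‖v‖ else 0)
    split_ifs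
    · exact h0
    · exact le_rfl
  · refine tendsto_const_nhds.congr' ?_
    filter_upwards [eventually_ge_atTop 1] with j hj
    rw [if_neg (by omega)]
  · intro x
    have h1 := hasSum_single (f := fun j : ℕ => (((if j = 0 then ‖v‖ else 0 : ℝ) : ℂ) *
      inner ℂ (b j) x) • f j) 0 (fun j hj => by
        show (((if j = 0 then ‖v‖ else 0 : ℝ) : ℂ) * inner ℂ (b j) x) • f j = 0
        rw [if_neg hj]
        simp)
    have h2 : (((if (0 : ℕ) = 0 then ‖v‖ else 0 : ℝ) : ℂ) * inner ℂ (b 0) x) • f 0 =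
        rk1 (b 0) v x := by
      rw [if_pos rfl, mul_comm, mul_smul, hfv]
      rfl
    rw [← h2]
    exact h1
  · by_cases hpt : p = ∞
    · left
      exact ⟨hpt, by simp⟩
    · right
      have hp0 : 0 < p.toReal := ENNReal.toReal_pos hp hpt
      have h1 : HasSum (fun j : ℕ => (if j = 0 then ‖v‖ else 0 : ℝ) ^ p.toReal)
          (‖v‖ ^ p.toReal) := by
        have h2 := hasSum_single (f := fun j : ℕ => (if j = 0 then ‖v‖ else 0 : ℝ) ^ p.toReal) 0
          (fun j hj => by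
            show (if j = 0 then ‖v‖ else 0 : ℝ) ^ p.toReal = 0
            rw [if_neg hj, Real.zero_rpow hp0.ne'])
        simpa using h2
      refine ⟨hpt, h1.summable, ?_⟩
      rw [h1.tsum_eq, ← Real.rpow_mul h0, mul_one_div, div_self hp0.ne', Real.rpow_one]

/-- the matrix entries -/
noncomputable def cf (b : HilbertBasis ℕ ℂ H) (T : H →L[ℂ] H) : ℕ → ℂ :=
  fun l => inner ℂ (b l.unpair.1) (T (b l.unpair.2))

theorem cf_sum (hHS : S_HS) (b : HilbertBasis ℕ ℂ H) (T : H →L[ℂ] H) (t : ℝ) (h : InS 2 T t) :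
    HasSum (fun l => ‖cf b T l‖ ^ 2) (t ^ 2) ∧ 0 ≤ t := by
  obtain ⟨s, hs, h⟩ := h
  have h2 : (2 : ℝ≥0∞) ≠ ∞ := ENNReal.ofNat_ne_top
  rcases h with ⟨h, -⟩ | ⟨-, hsum, ht⟩
  · exact absurd h h2
  · have e2 : (2 : ℝ≥0∞).toReal = 2 := by simp
    rw [e2] at hsum ht
    simp only [Real.rpow_two] at hsum ht
    have h3 := hHS H b T s hs hsum
    have hnn : 0 ≤ ∑' j, s j ^ 2 := tsum_nonneg (fun j => sq_nonneg _)
    have ht2 : t ^ 2 = ∑' j, s j ^ 2 := by
      rw [ht, ← Real.sqrt_eq_rpow, Real.sq_sqrt hnn]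
    refine ⟨?_, ?_⟩
    · rw [ht2]
      have h4 := (Nat.pairEquiv.symm.hasSum_iff
        (f := fun z : ℕ × ℕ => ‖inner ℂ (b z.1) (T (b z.2))‖ ^ 2)).2 h3
      exact h4
    · rw [ht]
      exact Real.rpow_nonneg hnn _

theorem cf_mem (hHS : S_HS) (b : HilbertBasis ℕ ℂ H) (T : H →L[ℂ] H) (t : ℝ) (h : InS 2 T t) :
    Memℓp (cf b T) 2 := by
  rw [memℓp_gen_iff (by simp)]
  have e2 : (2 : ℝ≥0∞).toReal = 2 := by simp
  rw [e2]
  simp only [Real.rpow_two]
  exact (cf_sum hHS b T t h).1.summable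

open Classical in
/-- the vector with these coordinates -/
noncomputable def vec (b : HilbertBasis ℕ ℂ H) (T : H →L[ℂ] H) : H :=
  if h : Memℓp (cf b T) 2 then b.repr.symm (⟨cf b T, h⟩ : lp (fun _ : ℕ => ℂ) 2) else 0

theorem vec_norm (hHS : S_HS) (b : HilbertBasis ℕ ℂ H) (T : H →L[ℂ] H) (t : ℝ) (h : InS 2 T t) :
    ‖vec b T‖ = t := by
  have hm := cf_mem hHS b T t h
  obtain ⟨h1, ht⟩ := cf_sum hHS b T t h
  unfold vec
  rw [dif_pos hm, LinearIsometryEquiv.norm_map]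
  have h2 := lp.norm_rpow_eq_tsum (p := 2) (by simp) (⟨cf b T, hm⟩ : lp (fun _ : ℕ => ℂ) 2)
  have e2 : (2 : ℝ≥0∞).toReal = 2 := by simp
  rw [e2] at h2
  simp only [Real.rpow_two] at h2
  have h3 : ‖(⟨cf b T, hm⟩ : lp (fun _ : ℕ => ℂ) 2)‖ ^ 2 = t ^ 2 := by
    rw [h2, ← h1.tsum_eq]
  exact (sq_eq_sq₀ (norm_nonneg _) ht).1 h3

theorem vec_add (hHS : S_HS) (b : HilbertBasis ℕ ℂ H) (S T : H →L[ℂ] H) (r t : ℝ)
    (hS : InS 2 S r) (hT : InS 2 T t) : vec b (S + T) = vec b S + vec b T := by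
  have h1 := cf_mem hHS b S r hS
  have h2 := cf_mem hHS b T t hT
  have e : cf b (S + T) = cf b S + cf b T := by
    funext l
    show inner ℂ (b l.unpair.1) ((S + T) (b l.unpair.2)) = inner ℂ (b l.unpair.1) (S (b l.unpair.2)) +
      inner ℂ (b l.unpair.1) (T (b l.unpair.2))
    rw [add_apply, inner_add_right]
  have h3 : Memℓp (cf b (S + T)) 2 := by
    rw [e]
    exact h1.add h2
  unfold vec
  rw [dif_pos h1, dif_pos h2, dif_pos h3, ← map_add]
  congr 1
  exact Subtype.ext e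

theorem vec_smul (hHS : S_HS) (b : HilbertBasis ℕ ℂ H) (c : ℂ) (T : H →L[ℂ] H) (t : ℝ)
    (hT : InS 2 T t) : vec b (c • T) = c • vec b T := by
  have h2 := cf_mem hHS b T t hT
  have e : cf b (c • T) = c • cf b T := by
    funext l
    show inner ℂ (b l.unpair.1) ((c • T) (b l.unpair.2)) =
      c • inner ℂ (b l.unpair.1) (T (b l.unpair.2))
    rw [smul_apply, inner_smul_right, smul_eq_mul]
  have h3 : Memℓp (cf b (c • T)) 2 := by
    rw [e]
    exact h2.const_smul c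
  unfold vec
  rw [dif_pos h2, dif_pos h3, ← map_smul]
  congr 1
  exact Subtype.ext e

theorem rk1_add (u v w : H) : rk1 u (v + w) = rk1 u v + rk1 u w := by
  ext x
  show inner ℂ u x • (v + w) = inner ℂ u x • v + inner ℂ u x • w
  rw [smul_add]

theorem rk1_smul (u v : H) (c : ℂ) : rk1 u (c • v) = c • rk1 u v := by
  ext x
  show inner ℂ u x • (c • v) = c • (inner ℂ u x • v)
  rw [smul_comm]

end

theorem t_POS (hHS : S_HS) : S_POS := by
  intro H _ _ _ b p hp
  refine ⟨fun T => rk1 (b 0) (vec b T), ?_, ?_, ?_⟩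
  · intro S T r t hS hT
    show rk1 (b 0) (vec b (S + T)) = rk1 (b 0) (vec b S) + rk1 (b 0) (vec b T)
    rw [vec_add hHS b S T r t hS hT, rk1_add]
  · intro c T t hT
    show rk1 (b 0) (vec b (c • T)) = c • rk1 (b 0) (vec b T)
    rw [vec_smul hHS b c T t hT, rk1_smul]
  · intro T t hT
    have h := inS_rk1 b (vec b T) p hp
    rw [vec_norm hHS b T t hT] at h
    exact h

end Pool.Agent.Q121.SH
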